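import Pool.Agent.H71.PX.Targets

/-!
# Easy prefixes: one element less
-/

set_option autoImplicit false

namespace Pool.Agent.H33.PX.E1

open Pool.Agent.H71.PX

theorem pf_E1 (ex : T_EX) (ax : T_AX) (sb : T_SB) : T_E1 := by
  classical
  intro φ a b n hV han hn1 hn
  obtain ⟨-, R, hR⟩ := hn
  obtain ⟨n', rfl⟩ : ∃ n', n = n' + 1 := ⟨n - 1, by omega⟩
  have hn' : 0 < n' := by omega
  obtain ⟨c, -, hc⟩ := (ex (Fin (n' + 1)) R φ a (List.replicate b true) (fun _ => 0)).1
    (hR (fun _ => 0))
  obtain ⟨e, he⟩ : ∃ e : Fin (n' + 1), ∀ i, i < a → c i ≠ e := by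
    by_contra hcon
    push Not at hcon
    have h1 : (Finset.univ : Finset (Fin (n' + 1))) ⊆ (Finset.range a).image c := by
      intro e _
      obtain ⟨i, hi, hie⟩ := hcon e
      exact Finset.mem_image.2 ⟨i, Finset.mem_range.2 hi, hie⟩
    have h2 := Finset.card_le_card h1
    have h3 : ((Finset.range a).image c).card ≤ a := by
      refine le_trans Finset.card_image_le ?_
      rw [Finset.card_range]
    rw [Finset.card_univ, Fintype.card_fin] at h2
    omega
  have hs : n' + 1 - 1 = n' := by omega
  rw [hs]
  refine ⟨hn', fun i l => R i (l.map e.succAbove), ?_⟩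
  intro v'
  rw [ex]
  have hg : ∀ i, ∃ z : Fin n', i < a → e.succAbove z = c i := by
    intro i
    by_cases hi : i < a
    · obtain ⟨z, hz⟩ := Fin.exists_succAbove_eq (he i hi)
      exact ⟨z, fun _ => hz⟩
    · exact ⟨⟨0, hn'⟩, fun h => absurd h hi⟩
  choose g hg using hg
  refine ⟨fun i => if i < a then g i else v' i, ?_, ?_⟩
  · intro i hi
    exact if_neg (by omega)
  · rw [ax]
    intro d hd
    have hD : ∀ i, i < a ∨ a + b ≤ i → (if i < a + b then e.succAbove (d i) else c i) = c i := by
      intro i hi
      rcases hi with hi | hi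
      · rw [if_pos (by omega), hd i (Or.inl hi), if_pos hi]
        exact hg i hi
      · rw [if_neg (by omega)]
    have h1 := (ax (Fin (n' + 1)) R φ a b c).1 hc
      (fun i => if i < a + b then e.succAbove (d i) else c i) hD
    have h2 := sb (Fin (n' + 1)) (Fin n') R (fun i l => R i (l.map e.succAbove)) φ (a + b)
      (fun i => if i < a + b then e.succAbove (d i) else c i) d hV ?_ ?_
    · exact h2.1 h1
    · intro i j hi hj
      show ((if i < a + b then e.succAbove (d i) else c i) =
        if j < a + b then e.succAbove (d j) else c j) ↔ _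
      rw [if_pos hi, if_pos hj]
      exact Fin.succAbove_right_injective.eq_iff
    · intro i xs hxs
      have h3 : xs.map (fun i => if i < a + b then e.succAbove (d i) else c i) =
          (xs.map d).map e.succAbove := by
        rw [List.map_map]
        refine List.map_congr_left fun x hx => ?_
        rw [if_pos (hxs x hx)]
        rfl
      rw [h3]

end Pool.Agent.H33.PX.E1
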