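import Pool.Agent.H71.PX.Targets

/-!
# Easy prefixes: one element more
-/

set_option autoImplicit false

namespace Pool.Agent.H33.PX.E2

open Pool.Agent.H71.PX

/-- the last element becomes a twin of `e` -/
def cl {n : ℕ} (e : Fin n) (y : Fin (n + 1)) : Fin n := if h : y.1 < n then ⟨y.1, h⟩ else e

theorem cl_castSucc {n : ℕ} (e x : Fin n) : cl e x.castSucc = x := by
  unfold cl
  exact dif_pos x.2

theorem cl_last {n : ℕ} (e : Fin n) : cl e (Fin.last n) = e := by
  unfold cl
  exact dif_neg (lt_irrefl n)

theorem pf_E2 (ex : T_EX) (eb : T_EB) (sb : T_SB) : T_E2 := by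
  classical
  intro φ a b n hV han hn
  obtain ⟨hn0, R, hR⟩ := hn
  obtain ⟨c, -, hc⟩ := (ex (Fin n) R φ a (true :: List.replicate b false) (fun _ => ⟨0, hn0⟩)).1
    (hR (fun _ => ⟨0, hn0⟩))
  obtain ⟨e, he⟩ : ∃ e : Fin n, ∀ i, i < a → c i ≠ e := by
    by_contra hcon
    push Not at hcon
    have h1 : (Finset.univ : Finset (Fin n)) ⊆ (Finset.range a).image c := by
      intro e _
      obtain ⟨i, hi, hie⟩ := hcon e
      exact Finset.mem_image.2 ⟨i, Finset.mem_range.2 hi, hie⟩
    have h2 := Finset.card_le_card h1
    have h3 : ((Finset.range a).image c).card ≤ a := by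
      refine le_trans Finset.card_image_le ?_
      rw [Finset.card_range]
    rw [Finset.card_univ, Fintype.card_fin] at h2
    omega
  obtain ⟨col, hcol⟩ : ∃ col : Fin (n + 1) → Fin n, col = cl e := ⟨_, rfl⟩
  have hc1 : ∀ x : Fin n, col x.castSucc = x := by
    intro x
    rw [hcol, cl_castSucc]
  have hc2 : col (Fin.last n) = e := by
    rw [hcol, cl_last]
  have hf : ∀ y : Fin (n + 1), ∃ f : Fin n → Fin (n + 1), (∀ z, col (f z) = z) ∧
      (∀ i, i < a → f (c i) = (c i).castSucc) ∧ f (col y) = y := by
    intro y
    by_cases hy : y = Fin.last n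
    · refine ⟨fun z => if z = e then Fin.last n else z.castSucc, ?_, ?_, ?_⟩
      · intro z
        by_cases hz : z = e
        · show col (if z = e then Fin.last n else z.castSucc) = z
          rw [if_pos hz, hc2, hz]
        · show col (if z = e then Fin.last n else z.castSucc) = z
          rw [if_neg hz, hc1]
      · intro i hi
        exact if_neg (he i hi)
      · rw [hy, hc2]
        exact if_pos rfl
    · obtain ⟨z, rfl⟩ := Fin.exists_castSucc_eq.2 hy
      refine ⟨Fin.castSucc, hc1, fun _ _ => rfl, ?_⟩
      rw [hc1]
  refine ⟨by omega, fun i l => R i (l.map col), ?_⟩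
  intro v'
  rw [ex]
  refine ⟨fun i => if i < a then (c i).castSucc else v' i, ?_, ?_⟩
  · intro i hi
    exact if_neg (by omega)
  · intro y
    obtain ⟨f, hf1, hf2, hf3⟩ := hf y
    have h1 : Pre R φ (List.replicate b false) (a + 1) (Function.update c a (col y)) := hc (col y)
    rw [eb] at h1
    obtain ⟨d, hd1, hd2⟩ := h1
    rw [eb]
    refine ⟨fun i => if i < a + 1 + b then f (d i) else
      Function.update (fun i => if i < a then (c i).castSucc else v' i) a y i, ?_, ?_⟩
    · intro i hi
      rcases hi with hi | hi
      · show (if i < a + 1 + b then f (d i) else _) = _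
        rw [if_pos (by omega), hd1 i (Or.inl hi)]
        by_cases hia : i = a
        · rw [hia, Function.update_self, Function.update_self]
          exact hf3
        · rw [Function.update_of_ne hia, Function.update_of_ne hia, if_pos (by omega)]
          exact hf2 i (by omega)
      · show (if i < a + 1 + b then f (d i) else _) = _
        rw [if_neg (by omega)]
    · have h2 := sb (Fin n) (Fin (n + 1)) R (fun i l => R i (l.map col)) φ (a + 1 + b) d
        (fun i => if i < a + 1 + b then f (d i) else
          Function.update (fun i => if i < a then (c i).castSucc else v' i) a y i) hV ?_ ?_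
      · exact h2.1 hd2
      · intro i j hi hj
        show _ ↔ (if i < a + 1 + b then f (d i) else _) = (if j < a + 1 + b then f (d j) else _)
        rw [if_pos hi, if_pos hj]
        have hinj : Function.Injective f := Function.LeftInverse.injective hf1
        exact hinj.eq_iff.symm
      · intro i xs hxs
        have h3 : (xs.map (fun i => if i < a + 1 + b then f (d i) else
          Function.update (fun i => if i < a then (c i).castSucc else v' i) a y i)).map col =
            xs.map d := by
          rw [List.map_map]
          refine List.map_congr_left fun x hx => ?_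
          show col (if x < a + 1 + b then f (d x) else _) = d x
          rw [if_pos (hxs x hx), hf1]
        show _ ↔ R i ((xs.map _).map col)
        rw [h3]

end Pool.Agent.H33.PX.E2
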