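import Pool.Agent.H71.PX.Targets
import Pool.Agent.H69.Sp.TrB

/-!
# The sizes of the finite models of a prenex sentence form a spectrum
-/

set_option autoImplicit false

namespace Pool.Agent.H33.PX.SP

open Pool.Agent.H71.PX Pool.Agent.H69.Sp

/-- translation of quantifier-free formulas -/
def tq : QF → Fm
  | .rel i xs => .rel i xs
  | .eq x y => .eq x y
  | .neg φ => .neg (tq φ)
  | .and φ ψ => .and (tq φ) (tq ψ)

/-- translation of prenex formulas -/
def tp (φ : QF) : List Bool → ℕ → Fm
  | [], _ => tq φ
  | true :: π, k => .all k (tp φ π (k + 1))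
  | false :: π, k => .neg (.all k (.neg (tp φ π (k + 1))))

theorem sat_tq {α : Type} (R : ℕ → List α → Prop) (φ : QF) (v : ℕ → α) :
    Sat (fun _ => True) R (tq φ) v ↔ φ.Sat R v := by
  induction φ with
  | rel i xs => exact Iff.rfl
  | eq x y => exact Iff.rfl
  | neg φ ih => exact not_congr ih
  | and φ ψ ih1 ih2 => exact and_congr ih1 ih2

theorem sat_tp {α : Type} (R : ℕ → List α → Prop) (φ : QF) (π : List Bool) :
    ∀ (k : ℕ) (v : ℕ → α), Sat (fun _ => True) R (tp φ π k) v ↔ Pre R φ π k v := by
  induction π with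
  | nil => intro k v; exact sat_tq R φ v
  | cons b π ih =>
    intro k v
    cases b with
    | true =>
      show (∀ a, True → Sat (fun _ => True) R (tp φ π (k + 1)) (Function.update v k a)) ↔
        ∀ a, Pre R φ π (k + 1) (Function.update v k a)
      exact forall_congr' fun a => ⟨fun h => (ih _ _).1 (h trivial), fun h _ => (ih _ _).2 h⟩
    | false =>
      show (¬ ∀ a, True → ¬ Sat (fun _ => True) R (tp φ π (k + 1)) (Function.update v k a)) ↔
        ∃ a, Pre R φ π (k + 1) (Function.update v k a)
      constructor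
      · intro h
        by_contra hc
        push Not at hc
        exact h fun a _ h2 => hc a ((ih _ _).1 h2)
      · rintro ⟨a, ha⟩ h
        exact h a trivial ((ih _ _).2 ha)

theorem qf_congr {α : Type} (R : ℕ → List α → Prop) (φ : QF) (k : ℕ) (v w : ℕ → α)
    (hV : φ.Vars k) (h : ∀ i, i < k → v i = w i) : φ.Sat R v ↔ φ.Sat R w := by
  induction φ with
  | rel i xs =>
    show R i (xs.map v) ↔ R i (xs.map w)
    rw [List.map_congr_left fun x hx => h x (hV x hx)]
  | eq x y =>
    show v x = v y ↔ w x = w y
    rw [h x hV.1, h y hV.2]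
  | neg φ ih => exact not_congr (ih hV)
  | and φ ψ ih1 ih2 => exact and_congr (ih1 hV.1) (ih2 hV.2)

theorem pre_congr {α : Type} (R : ℕ → List α → Prop) (φ : QF) (π : List Bool) :
    ∀ (k : ℕ) (v w : ℕ → α), φ.Vars (k + π.length) → (∀ i, i < k → v i = w i) →
      (Pre R φ π k v ↔ Pre R φ π k w) := by
  induction π with
  | nil =>
    intro k v w hV h
    exact qf_congr R φ k v w hV h
  | cons b π ih =>
    intro k v w hV h
    have hV' : φ.Vars (k + 1 + π.length) := by
      rw [List.length_cons] at hV
      have e : k + 1 + π.length = k + (π.length + 1) := by omega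
      rw [e]
      exact hV
    have hu : ∀ a : α, ∀ i, i < k + 1 → Function.update v k a i = Function.update w k a i := by
      intro a i hi
      by_cases hik : i = k
      · rw [hik, Function.update_self, Function.update_self]
      · rw [Function.update_of_ne hik, Function.update_of_ne hik]
        exact h i (by omega)
    cases b with
    | true => exact forall_congr' fun a => ih (k + 1) _ _ hV' (hu a)
    | false => exact exists_congr fun a => ih (k + 1) _ _ hV' (hu a)

theorem pf_SP : T_SP := by
  intro π φ hV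
  refine isSpectrum_of_defs (φ := tp φ π 0) ?_
  intro n
  constructor
  · rintro ⟨hn, R, hR⟩
    refine ⟨hn, fun i l => ∃ l' : List (Fin n), l = l'.map Fin.val ∧ R i l', ?_⟩
    have h1 := (sat_tp R φ π 0 (fun _ => ⟨0, hn⟩)).2 (hR fun _ => ⟨0, hn⟩)
    have h2 := (sat_transfer (D := fun _ : Fin n => True) (D' := (· < n))
      (I := R) (I' := fun i l => ∃ l' : List (Fin n), l = l'.map Fin.val ∧ R i l')
      (Fin.val : Fin n → ℕ) (fun a _ => a.2) (fun b hb => ⟨⟨b, hb⟩, trivial, rfl⟩)
      (fun a b _ _ hab => Fin.ext hab) ?_ (φ := tp φ π 0) (v := fun _ => ⟨0, hn⟩)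
      (fun _ => trivial)).1 h1
    · exact h2
    · intro i l _
      constructor
      · intro h
        exact ⟨l, rfl, h⟩
      · rintro ⟨l', h3, h4⟩
        have h5 : l = l' := (List.map_injective_iff.2 Fin.val_injective) h3
        rw [h5]
        exact h4
  · rintro ⟨hn, I, hI⟩
    refine ⟨hn, fun i l => I i (l.map Fin.val), ?_⟩
    have h2 := (sat_transfer (D := fun _ : Fin n => True) (D' := (· < n))
      (I := fun i l => I i (l.map Fin.val)) (I' := I)
      (Fin.val : Fin n → ℕ) (fun a _ => a.2) (fun b hb => ⟨⟨b, hb⟩, trivial, rfl⟩)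
      (fun a b _ _ hab => Fin.ext hab) (fun i l _ => Iff.rfl) (φ := tp φ π 0)
      (v := fun _ => ⟨0, hn⟩) (fun _ => trivial)).2 hI
    intro v
    refine (pre_congr _ φ π 0 (fun _ => ⟨0, hn⟩) v ?_ ?_).1 ((sat_tp _ φ π 0 _).1 h2)
    · rw [zero_add]
      exact hV
    · intro i hi
      exact absurd hi (Nat.not_lt_zero i)

end Pool.Agent.H33.PX.SP
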